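import Pool.Agent.H44Wide.Number
import Pool.Agent.H44Wide.Kurepa

/-!
# A maximal wide Aronszajn tree makes a slalom number large

For an infinite cardinal `μ`, a weakly maximal wide `μ⁺`-Aronszajn tree (in particular a maximal
one) implies `μ⁺ < slalomNumber μ⁺ μ ≤ 2 ^ μ`.
-/

namespace Pool.Agent.Results.MP_bd8177_lc.SlalomNumber

open Cardinal Order Pool.Agent.H44Wide

universe u

theorem result : ∀ μ : Cardinal.{u}, ℵ₀ ≤ μ →
    (∃ (T : Type u) (_ : PartialOrder T), WeaklyMaximal (succ μ) T) →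
    succ μ < slalomNumber (succ μ) μ ∧ slalomNumber (succ μ) μ ≤ 2 ^ μ := by
  rintro μ hμ ⟨T, hT0, hT⟩
  have h1 : (1 : Cardinal.{u}) < μ := one_lt_aleph0.trans_le hμ
  exact ⟨lt_slalomNumber hμ μ h1 (threads_succ hμ) T hT, slalomNumber_le hμ μ h1⟩

end Pool.Agent.Results.MP_bd8177_lc.SlalomNumber
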