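import Pool.Agent.H44Wide.Number
import Pool.Agent.H44Wide.TreeProp

/-!
# A maximal wide Aronszajn tree and narrow Aronszajn trees

For an infinite cardinal `μ`, a weakly maximal wide `μ⁺`-Aronszajn tree (in particular a maximal
one) implies that there is a `μ⁺`-Aronszajn tree or `μ⁺ < slalomNumber μ⁺ μ⁺`.
-/

namespace Pool.Agent.Results.MP_bd8177_lc.TreePropertyBound

open Cardinal Order Pool.Agent.H44Wide

universe u

theorem result : ∀ μ : Cardinal.{u}, ℵ₀ ≤ μ →
    (∃ (T : Type u) (_ : PartialOrder T), WeaklyMaximal (succ μ) T) →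
    (∃ (S : Type u) (_ : PartialOrder S), NarrowAronszajn (succ μ) S) ∨
      succ μ < slalomNumber (succ μ) (succ μ) := by
  rintro μ hμ ⟨T, hT0, hT⟩
  by_cases h : ∃ (S : Type u) (_ : PartialOrder S), NarrowAronszajn (succ μ) S
  · exact Or.inl h
  · refine Or.inr ?_
    have h1 : (1 : Cardinal.{u}) < succ μ := (one_lt_aleph0.trans_le hμ).trans (lt_succ μ)
    have hTP : TreeProperty (succ μ) := by
      intro S hS h2 h3 h4
      by_contra h5
      exact h ⟨S, hS, h2, h3, h4, h5⟩
    exact lt_slalomNumber hμ (succ μ) h1 (threads_of_treeProperty (isRegular_succ hμ) hTP) T hT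

end Pool.Agent.Results.MP_bd8177_lc.TreePropertyBound
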